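import Pool.Agent.H95.FH.Defs

open MvPolynomial

namespace H54.FH

open H95.FG H95.FH

theorem dt_single (a : Fin 3 → ℂ) (k : Fin 3) : dt (Pi.single k 1) a = a k := by
  simp [dt, Pi.single_apply]

theorem dt_add (x y a : Fin 3 → ℂ) : dt (x + y) a = dt x a + dt y a := by
  simp [dt, add_mul, Finset.sum_add_distrib]

theorem ball_infinite (c : ℂ) {δ : ℝ} (hδ : 0 < δ) : Infinite {x : ℂ | ‖x - c‖ < δ} := by
  have h : (Metric.ball c δ).Infinite := (Metric.isOpen_ball.mem_nhds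
    (Metric.mem_ball_self hδ)) |> fun h => (infinite_of_mem_nhds c h)
  have e : {x : ℂ | ‖x - c‖ < δ} = Metric.ball c δ := by
    ext x; simp [Metric.mem_ball, dist_eq_norm]
  rw [e]
  exact h.to_subtype

theorem poly_zero_of_ball (D : MvPolynomial (Fin 3) ℂ) (Y1 : Fin 3 → ℂ) {δ : ℝ} (hδ : 0 < δ)
    (h : ∀ Y, ‖Y - Y1‖ < δ → eval Y D = 0) : D = 0 := by
  have hi : ∀ i, {x : ℂ | ‖x - Y1 i‖ < δ / 2}.Infinite := fun i =>
    Set.infinite_coe_iff.1 (ball_infinite _ (by positivity))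
  refine MvPolynomial.funext_set (fun i => {x : ℂ | ‖x - Y1 i‖ < δ / 2}) hi (fun x hx => ?_)
  rw [map_zero]
  apply h
  have : ‖x - Y1‖ ≤ δ / 2 := by
    rw [pi_norm_le_iff_of_nonneg (by positivity)]
    intro i
    exact (hx i (Set.mem_univ i)).le
  linarith

theorem t_DETQ (hQF : S_QF) (hRO : S_RO) (hPART : S_PART) (hGRO : S_GRO) (hSWAP : S_SWAP)
    (hBAS : S_BAS) : S_DETQ := by
  intro m p A hC hex
  obtain ⟨z1, hg⟩ := hex
  obtain ⟨hC', hs1, -, hs3, -, -, -⟩ := hSWAP m 2 p A hC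
  have hz1 : z1 ≠ 0 := by
    rintro rfl
    apply hg.1.1
    have := (hBAS m 2 p A hC).2.1 0 0
    simpa using this
  obtain ⟨Y1, hY1⟩ := (hBAS m 2 p A hC).2.2.2.2.2.2.2 z1 hz1
  obtain ⟨ε, hε, hgr⟩ := hGRO m 2 p A hC z1 hg
  obtain ⟨δ, hδ, hro⟩ := hRO m p A hC z1 Y1 ε hε hg hY1
  obtain ⟨-, -, q, -, hq⟩ := hQF m (cp p) (sw A) hC'
  have hdet : ∀ Y, ‖Y - Y1‖ < δ → (QQ (sw A) Y).det = 0 := by
    intro Y hY
    obtain ⟨z, hz, hroot⟩ := hro Y hY
    obtain ⟨Y2, Y0, -, -, -, -, hfac, -⟩ := hPART m p A hC z Y (hgr z hz) hroot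
    have hent : ∀ k l, QQ (sw A) Y k l = (Y2 k * Y0 l + Y2 l * Y0 k) / 2 := by
      intro k l
      rw [QQ, Matrix.of_apply, hs1, hs1, hs1, hfac, hfac, hfac, dt_add, dt_add, dt_single,
        dt_single, dt_single, dt_single]
      ring
    rw [Matrix.det_fin_three]
    simp only [hent]
    ring
  let Qm : Matrix (Fin 3) (Fin 3) (MvPolynomial (Fin 3) ℂ) := Matrix.of q
  have hev : ∀ Y, eval Y Qm.det = (QQ (sw A) Y).det := by
    intro Y
    rw [RingHom.map_det]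
    congr 1
    ext k l
    simp [Qm, hq]
  have hD : Qm.det = 0 := poly_zero_of_ball _ Y1 hδ (fun Y hY => by rw [hev, hdet Y hY])
  have hall : ∀ Y, (QQ (sw A) Y).det = 0 := by
    intro Y
    rw [← hev, hD, map_zero]
  intro z
  have hconj : ∀ w : Fin 3 → ℂ, cv w = w → AA (sw A) (cv z) w = (starRingEnd ℂ) (AA A z w) := by
    intro w hw
    rw [hs1, ← hs3 z w, hw]
  have hcs : ∀ k : Fin 3, cv (Pi.single k 1 : Fin 3 → ℂ) = Pi.single k 1 := by
    intro k
    funext i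
    by_cases h : i = k
    · subst h; simp [cv]
    · simp [cv, Pi.single_apply, h]
  have hca : ∀ k l : Fin 3, cv (Pi.single k 1 + Pi.single l 1 : Fin 3 → ℂ) =
      Pi.single k 1 + Pi.single l 1 := by
    intro k l
    funext i
    have h1 := congrFun (hcs k) i
    have h2 := congrFun (hcs l) i
    simp only [cv] at h1 h2 ⊢
    rw [Pi.add_apply, map_add, h1, h2]
  have hent : ∀ k l, QQ (sw A) (cv z) k l = (starRingEnd ℂ) (QQ A z k l) := by
    intro k l
    rw [QQ, QQ, Matrix.of_apply, Matrix.of_apply, hconj _ (hcs k), hconj _ (hcs l),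
      hconj _ (hca k l), map_div₀, map_sub, map_sub, map_ofNat]
  have hfin : (starRingEnd ℂ) (QQ A z).det = (QQ (sw A) (cv z)).det := by
    rw [RingHom.map_det]
    congr 1
    ext k l
    rw [hent]
    rfl
  rw [hall] at hfin
  exact (map_eq_zero _).1 hfin

end H54.FH
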